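import Pool.Agent.Helper90.MZ.StmtsA

/-!
# MP_79eb7e_lc, module OPN: the open mapping theorem
-/

set_option autoImplicit false

namespace Pool.Agent.Helper90.MZ

open Pool.Agent.Helper90.TS

theorem st_OPN : ST_OPN := by
  intro V G _ _ X A B hAB hB ι _ c hc hsi
  have hA : A.Countable := hB.mono hAB
  obtain ⟨D, hD, hcD, hDc⟩ := hc
  obtain ⟨m, b, E, hb, hE, hDE⟩ := st_FSUP V G X B hB ι D hD
  have hcE : Sum.elim b c ∈ E := by
    rw [hDE] at hcD
    exact hcD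
  have h1 : SI X A (Set.range b) (Set.range c) :=
    si_left hb (si_symm hA (Set.countable_range c) hB hsi)
  have hγ : X.rk (A ∪ Set.range c) b = X.rk A b := (rk_si hA (Set.countable_range c)).2 h1
  obtain ⟨χ, hχ, hbχ, hχr, hχe⟩ := a_unid V G X A hA (Fin m) b
  have hχn : ¬ X.Rge (Order.succ (X.rk A b)) χ := by
    rw [hχr]
    exact not_le.2 (Order.lt_succ _)
  have hfib : ∀ x : ι → V, X.Ov (A ∪ Set.range x) (χ ∩ {y | Sum.elim y x ∈ E}) := fun x =>
    ov_inter (ov_mono X Set.subset_union_left hχ)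
      (ov_mono X (Set.union_subset_union_left _ (Set.empty_subset A)) (ov_secr hE x))
  refine ⟨{x | X.Rge (X.rk A b) (χ ∩ {y | Sum.elim y x ∈ E})}, ⟨?_, ?_⟩, ?_, ?_⟩
  · exact a_def V G X ι (Fin m) (X.rk A b) χ
      {w : ι ⊕ Fin m → V | Sum.elim (w ∘ Sum.inr) (w ∘ Sum.inl) ∈ E} hχ.1 hχn (ov_swap hE).1
  · intro g hg x hx
    have hg0 : g ∈ Fx G (∅ : Set V) := fx_anti (Set.empty_subset A) hg
    have hT : {y : Fin m → V | g • y ∈ χ ∩ {y | Sum.elim y (g • x) ∈ E}} =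
        χ ∩ {y | Sum.elim y x ∈ E} := by
      ext y
      constructor
      · rintro ⟨h2, h3⟩
        refine ⟨(inv_iff hχ.2 hg y).1 h2, ?_⟩
        have h4 : g • Sum.elim y x ∈ E := by
          rw [smul_elim]
          exact h3
        exact (inv_iff hE.2 hg0 _).1 h4
      · rintro ⟨h2, h3⟩
        refine ⟨(inv_iff hχ.2 hg y).2 h2, ?_⟩
        have h4 := (inv_iff hE.2 hg0 _).2 h3
        rw [smul_elim] at h4
        exact h4
    have h5 := ((a_rbas V G X (Fin m)).2.2.1 (X.rk A b)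
      (χ ∩ {y | Sum.elim y (g • x) ∈ E}) g).1
    apply h5
    rw [hT]
    exact hx
  · have h2 := (a_rkb V G X (Fin m) b).2.2.1 (A ∪ Set.range c)
      (χ ∩ {y | Sum.elim y c ∈ E}) (hfib c) ⟨hbχ, hcE⟩
    rw [hγ] at h2
    exact h2
  · intro x hx
    have hx' : X.Rge (X.rk A b) (χ ∩ {y | Sum.elim y x ∈ E}) := hx
    have hn : ¬ X.Rge (Order.succ (X.rk A b)) (χ ∩ {y | Sum.elim y x ∈ E}) := fun h =>
      hχn ((a_rbas V G X (Fin m)).1 _ _ _ hχ.1 Set.inter_subset_left h)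
    obtain ⟨b', ⟨hb'χ, hb'E⟩, hb'r⟩ := a_gen V G X (A ∪ Set.range x)
      (hA.union (Set.countable_range x)) (Fin m) (X.rk A b) _ (hfib x) hx' hn
    have h3 : X.rk A b' = X.rk A b := by
      apply le_antisymm
      · exact (a_rkb V G X (Fin m) b').2.1 A χ _ hχ hb'χ hχn
      · rw [← hb'r]
        exact (a_rkb V G X (Fin m) b').2.2.2.1 A _ Set.subset_union_left
    obtain ⟨σ, hσ, rfl⟩ := hχe b' hb'χ h3
    have hσ0 : σ ∈ Fx G (∅ : Set V) := fx_anti (Set.empty_subset A) hσ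
    have h4 : σ⁻¹ • x ∈ D := by
      rw [hDE]
      have h5 := hE.2 σ⁻¹ (inv_mem hσ0) _ hb'E
      rw [smul_elim, inv_smul_smul] at h5
      exact h5
    obtain ⟨τ, hτ, h6⟩ := hDc _ h4
    refine ⟨σ * τ, mul_mem hσ (fx_anti hAB hτ), ?_⟩
    rw [mul_smul, h6, smul_inv_smul]

end Pool.Agent.Helper90.MZ
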